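import Pool.Agent.H73.DT5
import Pool.Agent.H73.DT9

set_option autoImplicit false

namespace Pool.Agent.Results.MP_e5892f_al.NoAlternative

open H73.DT

/-- The dynamical Tits alternative fails for the rational group over every finite alphabet with at
least two letters, for every Brin-Thompson group `nV` (`n ≥ 2`) and for every `Aut(V_{d,k})`. -/
theorem result :
    (∀ (A : Type) [Finite A] [Nontrivial A] [TopologicalSpace A] [DiscreteTopology A],
      ∃ H : Subgroup ((ℕ → A) ≃ₜ (ℕ → A)),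
        (∀ h ∈ H, Rational h) ∧ ¬ InvMeasure H ∧ ¬ PingPong H) ∧
    (∀ n : ℕ, 2 ≤ n → ∃ H : Subgroup ((Fin n → ℕ → Bool) ≃ₜ (Fin n → ℕ → Bool)),
        (∀ h ∈ H, InNV h) ∧ ¬ InvMeasure H ∧ ¬ PingPong H) ∧
    (∀ d k : ℕ, 2 ≤ d → 1 ≤ k →
      ∃ H : Subgroup ((Fin k × (ℕ → Fin d)) ≃ₜ (Fin k × (ℕ → Fin d))),
        (∀ h ∈ H, InAutV h) ∧ ¬ InvMeasure H ∧ ¬ PingPong H) := by
  refine ⟨fun A _ _ _ _ => ?_, nV_fails, aut_fails⟩
  obtain ⟨o, l, hol⟩ := exists_pair_ne A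
  refine ⟨HL o l, ?_, not_invMeasure _ _ id continuous_id (fun s hs => ⟨s, hs, fun _ => rfl⟩)
    (HL_inv hol), not_pingPong _ HL_fixed⟩
  rintro h ⟨g, hg⟩
  exact hg.1.2.1.rational h.continuous h.injective

end Pool.Agent.Results.MP_e5892f_al.NoAlternative
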